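import Mathlib

/-!
# MP_5ac669_co : complement symmetry of weighted path sums in a rectangle

For all `n ≥ 2`, `1 ≤ k ≤ n - 1` and all partitions `lam` in the `(n-k) × k` rectangle,
`V(lam) = α (V(lam^c))`.  The box map `(r,c) ↦ (n-k+1-r, k+1-c)` sends label `i` to `n - i` and
the weight `w_j` is invariant under reversing the labels and applying `α`, so the two sums agree
term by term.
-/

namespace Pool.Agent.Results.MP_5ac669_co.ComplementSymmetry

open MvPolynomial Finset

noncomputable section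

open Classical

/-- The field `ℂ(ħ, a_1, …, a_n)`. -/
abbrev K (n : ℕ) : Type := FractionRing (MvPolynomial (Option (Fin n)) ℂ)

/-- The indeterminate `ħ`. -/
def hbar (n : ℕ) : K n := algebraMap (MvPolynomial (Option (Fin n)) ℂ) (K n) (X none)

/-- The indeterminate `a_i`, `1 ≤ i ≤ n` (junk value `0` outside that range). -/
def av (n i : ℕ) : K n :=
  if h : 1 ≤ i ∧ i ≤ n then
    algebraMap (MvPolynomial (Option (Fin n)) ℂ) (K n) (X (some ⟨i - 1, by omega⟩))
  else 0

/-- The rectangle `R` with `n - k` rows and `k` columns; a box is a pair (row, column). -/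
def rect (n k : ℕ) : Finset (ℕ × ℕ) := Icc 1 (n - k) ×ˢ Icc 1 k

/-- `D` is (the diagram of) a partition in the rectangle. -/
def IsDiagram (n k : ℕ) (D : Finset (ℕ × ℕ)) : Prop :=
  D ⊆ rect n k ∧ ∀ r c r' c' : ℕ, (r, c) ∈ D → (r', c') ∈ rect n k → r' ≤ r → c' ≤ c →
    (r', c') ∈ D

/-- The rotation of the rectangle by 180 degrees. -/
def rot (n k : ℕ) (e : ℕ × ℕ) : ℕ × ℕ := (n - k + 1 - e.1, k + 1 - e.2)

/-- The complement `lam^c` of a partition in the rectangle. -/
def compl (n k : ℕ) (lam : Finset (ℕ × ℕ)) : Finset (ℕ × ℕ) :=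
  (rect n k \ lam).image (rot n k)

/-- `S` is a path to `lam`: it lists every box of `R` exactly once, and for every
`0 ≤ j ≤ N = k (n - k)`, the boxes of `lam` not among the first `j` entries form a diagram, and
`lam` together with the boxes of `R \ lam` among the first `j` entries forms a diagram. -/
def IsPath (n k : ℕ) (lam : Finset (ℕ × ℕ)) (S : List (ℕ × ℕ)) : Prop :=
  S.Nodup ∧ S.toFinset = rect n k ∧ ∀ j, j ≤ k * (n - k) →
    IsDiagram n k (lam \ (S.take j).toFinset) ∧
    IsDiagram n k (lam ∪ ((rect n k \ lam) ∩ (S.take j).toFinset))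

/-- The finite set `P_lam` of paths to `lam`. -/
def paths (n k : ℕ) (lam : Finset (ℕ × ℕ)) : Finset (List (ℕ × ℕ)) :=
  (rect n k).val.lists.toFinset.filter (IsPath n k lam)

/-- The label `r - c + k` of a box `(r, c)` (for `1 ≤ c ≤ k` this is `r + k - c`). -/
def label (k : ℕ) (e : ℕ × ℕ) : ℕ := e.1 + k - e.2

/-- `m_i^{(j)}`: the number of `t ≤ j` such that the `t`-th entry of `S` has label `i`, for
`i ≠ n`, and `m_n^{(j)} = 0`. -/
def mult (n k : ℕ) (S : List (ℕ × ℕ)) (j i : ℕ) : ℕ :=
  if i = n then 0 else (S.take j).countP (fun e => label k e = i)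

/-- The weight `w_j(S)`. -/
def wt (n k : ℕ) (S : List (ℕ × ℕ)) (j : ℕ) : K n :=
  ∑ i ∈ Icc 1 (n - 1),
    (hbar n * (mult n k S j i : K n) * ((mult n k S j i : K n) - (mult n k S j (i + 1) : K n))
      + (mult n k S j i : K n) * (av n (i + 1) - av n i))

/-- The weighted path sum `V(lam)`. -/
def V (n k : ℕ) (lam : Finset (ℕ × ℕ)) : K n :=
  ∑ S ∈ paths n k lam, ∏ j ∈ Icc 1 (k * (n - k)), 1 / wt n k S j

/-! ### The automorphism `α` -/

/-- The images of the variables under `α`. -/
def subst (n : ℕ) : Option (Fin n) → MvPolynomial (Option (Fin n)) ℂ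
  | none => X none
  | some i => - X (some i.rev)

/-- `α` on polynomials. -/
def alphaHom (n : ℕ) :
    MvPolynomial (Option (Fin n)) ℂ →ₐ[ℂ] MvPolynomial (Option (Fin n)) ℂ :=
  aeval (subst n)

lemma alphaHom_comp (n : ℕ) : (alphaHom n).comp (alphaHom n) = AlgHom.id ℂ _ := by
  apply MvPolynomial.algHom_ext
  rintro (_ | i)
  · simp [alphaHom, subst]
  · simp [alphaHom, subst]

/-- `α` as an automorphism of the polynomial ring. -/
def alphaPoly (n : ℕ) :
    MvPolynomial (Option (Fin n)) ℂ ≃ₐ[ℂ] MvPolynomial (Option (Fin n)) ℂ :=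
  AlgEquiv.ofAlgHom (alphaHom n) (alphaHom n) (alphaHom_comp n) (alphaHom_comp n)

/-- The field automorphism `α` of `ℂ(ħ, a_1, …, a_n)` with `α ħ = ħ`, `α a_i = -a_{n+1-i}`. -/
def alpha (n : ℕ) : K n ≃ₐ[ℂ] K n :=
  IsFractionRing.fieldEquivOfAlgEquiv ℂ (K n) (K n) (alphaPoly n)

lemma alpha_algebraMap (n : ℕ) (p : MvPolynomial (Option (Fin n)) ℂ) :
    alpha n (algebraMap _ (K n) p) = algebraMap _ (K n) (alphaHom n p) := by
  unfold alpha
  rw [IsFractionRing.fieldEquivOfAlgEquiv_algebraMap]
  rfl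

lemma alpha_hbar (n : ℕ) : alpha n (hbar n) = hbar n := by
  unfold hbar
  rw [alpha_algebraMap]
  simp [alphaHom, subst]

lemma alpha_av (n i : ℕ) (h1 : 1 ≤ i) (h2 : i ≤ n) :
    alpha n (av n i) = - av n (n + 1 - i) := by
  have h3 : 1 ≤ n + 1 - i ∧ n + 1 - i ≤ n := by omega
  unfold av
  rw [dif_pos ⟨h1, h2⟩, dif_pos h3, alpha_algebraMap]
  have : (Fin.rev (⟨i - 1, by omega⟩ : Fin n)) = (⟨n + 1 - i - 1, by omega⟩ : Fin n) := by
    ext
    simp [Fin.rev]
    omega
  simp [alphaHom, subst, this]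

/-! ### The rotation -/

lemma mem_rect {n k : ℕ} {e : ℕ × ℕ} :
    e ∈ rect n k ↔ (1 ≤ e.1 ∧ e.1 ≤ n - k) ∧ (1 ≤ e.2 ∧ e.2 ≤ k) := by
  simp [rect]

lemma rot_mem {n k : ℕ} {e : ℕ × ℕ} (he : e ∈ rect n k) : rot n k e ∈ rect n k := by
  rw [mem_rect] at he ⊢
  simp only [rot]
  omega

lemma rot_rot {n k : ℕ} {e : ℕ × ℕ} (he : e ∈ rect n k) : rot n k (rot n k e) = e := by
  rw [mem_rect] at he
  ext <;> simp only [rot] <;> omega

lemma rot_injOn (n k : ℕ) : Set.InjOn (rot n k) (rect n k : Set (ℕ × ℕ)) := by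
  intro a ha b hb hab
  rw [← rot_rot (n := n) (k := k) (e := a) ha, hab, rot_rot hb]

lemma label_rot {n k : ℕ} (hk : k ≤ n) {e : ℕ × ℕ} (he : e ∈ rect n k) :
    label k (rot n k e) = n - label k e := by
  rw [mem_rect] at he
  simp only [rot, label]
  omega

lemma label_bd {n k : ℕ} (hk : k ≤ n) {e : ℕ × ℕ} (he : e ∈ rect n k) :
    1 ≤ label k e ∧ label k e ≤ n - 1 := by
  rw [mem_rect] at he
  simp only [label]
  omega

lemma mem_image_rot {n k : ℕ} {D : Finset (ℕ × ℕ)} (hD : D ⊆ rect n k) {e : ℕ × ℕ} :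
    e ∈ D.image (rot n k) ↔ e ∈ rect n k ∧ rot n k e ∈ D := by
  constructor
  · intro h
    obtain ⟨x, hx, rfl⟩ := mem_image.1 h
    exact ⟨rot_mem (hD hx), by rwa [rot_rot (hD hx)]⟩
  · rintro ⟨h1, h2⟩
    exact mem_image.2 ⟨rot n k e, h2, rot_rot h1⟩

lemma isDiagram_compl {n k : ℕ} {D : Finset (ℕ × ℕ)} (hD : IsDiagram n k D) :
    IsDiagram n k ((rect n k \ D).image (rot n k)) := by
  refine ⟨?_, ?_⟩
  · intro e he
    exact ((mem_image_rot sdiff_subset).1 he).1
  · intro r c r' c' h1 h2 hr hc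
    rw [mem_image_rot sdiff_subset] at h1 ⊢
    refine ⟨h2, ?_⟩
    rw [mem_sdiff] at h1 ⊢
    refine ⟨rot_mem h2, fun h3 => h1.2.2 ?_⟩
    have h4 := mem_rect.1 h2
    have h5 := mem_rect.1 h1.1
    refine hD.2 _ _ _ _ h3 (rot_mem h1.1) ?_ ?_
    · simp only at h4 h5 ⊢
      omega
    · simp only at h4 h5 ⊢
      omega

lemma compl_compl' {n k : ℕ} {lam : Finset (ℕ × ℕ)} (h : lam ⊆ rect n k) :
    compl n k (compl n k lam) = lam := by
  unfold compl
  ext e
  rw [mem_image_rot sdiff_subset, mem_sdiff, mem_image_rot sdiff_subset, mem_sdiff]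
  constructor
  · rintro ⟨h1, h2, h3⟩
    by_contra h4
    apply h3
    rw [rot_rot h1]
    exact ⟨h2, h1, h4⟩
  · intro h1
    have h2 := h h1
    refine ⟨h2, rot_mem h2, ?_⟩
    rw [rot_rot h2]
    rintro ⟨_, _, h3⟩
    exact h3 h1

lemma take_subset {n k : ℕ} {S : List (ℕ × ℕ)} (hS : S.toFinset = rect n k) (j : ℕ) :
    (S.take j).toFinset ⊆ rect n k := by
  rw [← hS]
  intro e he
  rw [List.mem_toFinset] at he ⊢
  exact List.mem_of_mem_take he

lemma toFinset_map_take (n k : ℕ) (S : List (ℕ × ℕ)) (j : ℕ) :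
    ((S.map (rot n k)).take j).toFinset = (S.take j).toFinset.image (rot n k) := by
  rw [← List.map_take]
  ext e
  simp only [List.mem_toFinset, List.mem_map, mem_image]

lemma isPath_map {n k : ℕ} {lam : Finset (ℕ × ℕ)} (hlam : lam ⊆ rect n k)
    {S : List (ℕ × ℕ)} (hS : IsPath n k lam S) :
    IsPath n k (compl n k lam) (S.map (rot n k)) := by
  obtain ⟨h1, h2, h3⟩ := hS
  refine ⟨?_, ?_, ?_⟩
  · apply List.Nodup.map_on _ h1
    intro x hx y hy hxy
    apply rot_injOn n k _ _ hxy
    · rw [mem_coe, ← h2, List.mem_toFinset]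
      exact hx
    · rw [mem_coe, ← h2, List.mem_toFinset]
      exact hy
  · ext e
    rw [List.mem_toFinset, List.mem_map]
    constructor
    · rintro ⟨x, hx, rfl⟩
      apply rot_mem
      rw [← h2, List.mem_toFinset]
      exact hx
    · intro he
      refine ⟨rot n k e, ?_, rot_rot he⟩
      have := rot_mem he
      rw [← h2, List.mem_toFinset] at this
      exact this
  · intro j hj
    obtain ⟨h4, h5⟩ := h3 j hj
    have hT := take_subset h2 j
    rw [toFinset_map_take]
    set T := (S.take j).toFinset with hTdef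
    constructor
    · have e1 : compl n k lam \ T.image (rot n k) =
          (rect n k \ (lam ∪ ((rect n k \ lam) ∩ T))).image (rot n k) := by
        unfold compl
        ext e
        rw [mem_sdiff, mem_image_rot sdiff_subset, mem_image_rot hT,
          mem_image_rot sdiff_subset]
        simp only [mem_sdiff, mem_union, mem_inter]
        tauto
      rw [e1]
      exact isDiagram_compl h5
    · have e1 : compl n k lam ∪ ((rect n k \ compl n k lam) ∩ T.image (rot n k)) =
          (rect n k \ (lam \ T)).image (rot n k) := by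
        unfold compl
        ext e
        rw [mem_union, mem_inter, mem_sdiff, mem_image_rot sdiff_subset, mem_image_rot hT,
          mem_image_rot sdiff_subset]
        simp only [mem_sdiff]
        have := @hlam (rot n k e)
        have := @rot_mem n k e
        tauto
      rw [e1]
      exact isDiagram_compl h4

lemma mult_map {n k : ℕ} (hk : k ≤ n) {S : List (ℕ × ℕ)} (hS : S.toFinset = rect n k)
    (j i : ℕ) (hi : i ≤ n) :
    mult n k (S.map (rot n k)) j i = mult n k S j (n - i) := by
  have hmem : ∀ e ∈ S.take j, e ∈ rect n k := by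
    intro e he
    exact take_subset hS j (List.mem_toFinset.2 he)
  unfold mult
  rw [← List.map_take, List.countP_map]
  by_cases h0 : i = n
  · subst h0
    rw [if_pos rfl]
    split_ifs with h
    · rfl
    · symm
      rw [List.countP_eq_zero]
      intro e he
      have := label_bd hk (hmem e he)
      simp
      omega
  · rw [if_neg h0]
    split_ifs with h
    · rw [List.countP_eq_zero]
      intro e he
      have h1 := label_bd hk (hmem e he)
      have h2 := label_rot hk (hmem e he)
      simp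
      omega
    · apply List.countP_congr
      intro e he
      have h1 := label_bd hk (hmem e he)
      have h2 := label_rot hk (hmem e he)
      simp
      omega

lemma mult_zero {n k : ℕ} (hk : k ≤ n) {S : List (ℕ × ℕ)} (hS : S.toFinset = rect n k)
    (j : ℕ) : mult n k S j 0 = 0 := by
  have hmem : ∀ e ∈ S.take j, e ∈ rect n k := by
    intro e he
    exact take_subset hS j (List.mem_toFinset.2 he)
  unfold mult
  split_ifs with h
  · rfl
  · rw [List.countP_eq_zero]
    intro e he
    have := label_bd hk (hmem e he)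
    simp
    omega

lemma mult_n (n k : ℕ) (S : List (ℕ × ℕ)) (j : ℕ) : mult n k S j n = 0 := by
  simp [mult]

lemma tele {F : Type*} [Field F] (m : ℕ → F) (N : ℕ) (h0 : m 0 = 0) :
    ∑ i ∈ Icc 1 N, (m i * m (i + 1) - m i * m (i - 1)) = m N * m (N + 1) := by
  induction N with
  | zero => simp [h0]
  | succ N ih =>
    rw [Finset.sum_Icc_succ_top (by omega), ih]
    simp only [Nat.add_sub_cancel]
    ring

lemma wt_map {n k : ℕ} (hn : 1 ≤ n) (hk : k ≤ n) {S : List (ℕ × ℕ)}
    (hS : S.toFinset = rect n k) (j : ℕ) :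
    alpha n (wt n k (S.map (rot n k)) j) = wt n k S j := by
  unfold wt
  rw [map_sum]
  have e1 : ∑ i ∈ Icc 1 (n - 1), alpha n
      (hbar n * (mult n k (S.map (rot n k)) j i : K n) *
        ((mult n k (S.map (rot n k)) j i : K n) - (mult n k (S.map (rot n k)) j (i + 1) : K n))
      + (mult n k (S.map (rot n k)) j i : K n) * (av n (i + 1) - av n i)) =
      ∑ i ∈ Icc 1 (n - 1),
      (hbar n * (mult n k S j (n - i) : K n) *
        ((mult n k S j (n - i) : K n) - (mult n k S j (n - i - 1) : K n))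
      + (mult n k S j (n - i) : K n) * (av n (n - i + 1) - av n (n - i))) := by
    apply sum_congr rfl
    intro i hi
    rw [mem_Icc] at hi
    rw [mult_map hk hS j i (by omega), mult_map hk hS j (i + 1) (by omega)]
    simp only [map_add, map_mul, map_sub, map_natCast, alpha_hbar]
    rw [alpha_av n i hi.1 (by omega), alpha_av n (i + 1) (by omega) (by omega)]
    have e2 : n - (i + 1) = n - i - 1 := by omega
    have e3 : n + 1 - i = n - i + 1 := by omega
    have e4 : n + 1 - (i + 1) = n - i := by omega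
    rw [e2, e3, e4]
    ring
  rw [e1]
  have e5 : ∑ i ∈ Icc 1 (n - 1),
      (hbar n * (mult n k S j (n - i) : K n) *
        ((mult n k S j (n - i) : K n) - (mult n k S j (n - i - 1) : K n))
      + (mult n k S j (n - i) : K n) * (av n (n - i + 1) - av n (n - i))) =
      ∑ i ∈ Icc 1 (n - 1),
      (hbar n * (mult n k S j i : K n) *
        ((mult n k S j i : K n) - (mult n k S j (i - 1) : K n))
      + (mult n k S j i : K n) * (av n (i + 1) - av n i)) := by
    apply sum_bij' (fun i _ => n - i) (fun i _ => n - i)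
    · intro i hi
      rw [mem_Icc] at hi ⊢
      omega
    · intro i hi
      rw [mem_Icc] at hi ⊢
      omega
    · intro i hi
      rw [mem_Icc] at hi
      omega
    · intro i hi
      rw [mem_Icc] at hi
      omega
    · intro i hi
      rfl
  rw [e5, ← sub_eq_zero, ← sum_sub_distrib]
  have h := tele (fun i => (mult n k S j i : K n)) (n - 1) (by
    simp only [mult_zero hk hS j, Nat.cast_zero])
  have e6 : n - 1 + 1 = n := by omega
  rw [e6, mult_n] at h
  simp only [Nat.cast_zero, mul_zero] at h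
  calc _ = ∑ i ∈ Icc 1 (n - 1), hbar n *
        ((mult n k S j i : K n) * (mult n k S j (i + 1) : K n) -
          (mult n k S j i : K n) * (mult n k S j (i - 1) : K n)) := by
        apply sum_congr rfl
        intro i _
        ring
    _ = 0 := by rw [← mul_sum, h, mul_zero]

lemma mem_paths {n k : ℕ} {lam : Finset (ℕ × ℕ)} {S : List (ℕ × ℕ)} :
    S ∈ paths n k lam ↔ IsPath n k lam S := by
  unfold paths
  rw [mem_filter, Multiset.mem_toFinset, Multiset.mem_lists_iff]
  constructor
  · exact fun h => h.2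
  · intro h
    refine ⟨?_, h⟩
    rw [← h.2.1, List.toFinset_val, List.Nodup.dedup h.1]
    rfl

theorem symmetry {n k : ℕ} (hn : 1 ≤ n) (hk : k ≤ n) {lam : Finset (ℕ × ℕ)}
    (hlam : lam ⊆ rect n k) : V n k lam = alpha n (V n k (compl n k lam)) := by
  unfold V
  rw [map_sum]
  refine sum_bij' (fun S _ => S.map (rot n k)) (fun S _ => S.map (rot n k)) ?_ ?_ ?_ ?_ ?_
  · intro S hS
    rw [mem_paths] at hS ⊢
    exact isPath_map hlam hS
  · intro S hS
    rw [mem_paths] at hS ⊢
    have h1 : compl n k lam ⊆ rect n k := by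
      intro e he
      exact ((mem_image_rot sdiff_subset).1 he).1
    have := isPath_map h1 hS
    rwa [compl_compl' hlam] at this
  · intro S hS
    rw [mem_paths] at hS
    rw [List.map_map]
    conv_rhs => rw [← List.map_id S]
    apply List.map_congr_left
    intro e he
    exact rot_rot (by rw [← hS.2.1, List.mem_toFinset]; exact he)
  · intro S hS
    rw [mem_paths] at hS
    rw [List.map_map]
    conv_rhs => rw [← List.map_id S]
    apply List.map_congr_left
    intro e he
    exact rot_rot (by rw [← hS.2.1, List.mem_toFinset]; exact he)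
  · intro S hS
    rw [mem_paths] at hS
    rw [map_prod]
    apply prod_congr rfl
    intro j _
    rw [map_div₀, map_one, wt_map hn hk hS.2.1]

end

/-- **MP_5ac669_co, Q1 (full answer: the identity holds).**  The field automorphism `alpha n` of
`ℂ(ħ, a_1, …, a_n)` fixes `ħ` and sends `a_i` to `-a_{n+1-i}`, and for all `n ≥ 2`,
`1 ≤ k ≤ n - 1` and every partition `lam` in the `(n-k) × k` rectangle,
`V(lam) = α (V(lam^c))`. -/
theorem result :
    (∀ n : ℕ, alpha n (hbar n) = hbar n ∧
      ∀ i : ℕ, 1 ≤ i → i ≤ n → alpha n (av n i) = - av n (n + 1 - i)) ∧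
    (∀ n k : ℕ, 2 ≤ n → 1 ≤ k → k ≤ n - 1 → ∀ lam : Finset (ℕ × ℕ), IsDiagram n k lam →
      V n k lam = alpha n (V n k (compl n k lam))) := by
  refine ⟨fun n => ⟨alpha_hbar n, fun i h1 h2 => alpha_av n i h1 h2⟩, ?_⟩
  intro n k hn hk1 hk2 lam hlam
  exact symmetry (by omega) (by omega) hlam.1

end Pool.Agent.Results.MP_5ac669_co.ComplementSymmetry
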